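import Pool.Agent.Y549.SP.BAD3
import Pool.Agent.Y549.SP.LS3
import Pool.Agent.Y549.SP.BL
import Pool.Agent.Y549.SP.PJ
import Pool.Agent.Y549.SP.NUM2
import Pool.Agent.Y549.SP.SPL
import Pool.Agent.Y549.SP.CNT2

/-!
# Joint splitting in several quadratic fields: counting (helper61)
-/

set_option autoImplicit false

namespace Pool.Agent.U61.JS

open Finset Filter Pool.Agent.Y549.SP

/-- fundamental discriminants (and `1`) -/
def Fund (d : ℤ) : Prop := (d % 4 = 1 ∧ Squarefree d) ∨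
  ∃ m : ℤ, d = 4 * m ∧ (m % 4 = 2 ∨ m % 4 = 3) ∧ Squarefree m

theorem bad3 : S_BAD3 := BAD3.main BL.main (LS3.main PJ.main) NUM2.main

/-- counting tuples by their fibres -/
lemma fiber_count (n : ℕ) (i₀ : Fin (n + 1)) (I : Finset ℤ) (F : Finset (Fin (n + 1) → ℤ)) (B : ℝ)
    (hI : ∀ d ∈ F, ∀ i, d i ∈ I)
    (hB : ∀ e : Fin n → ℤ,
      ((I.filter (fun z => (i₀.insertNth z e : Fin (n + 1) → ℤ) ∈ F)).card : ℝ) ≤ B) :
    (F.card : ℝ) ≤ (I.card : ℝ) ^ n * B := by
  classical
  have hsub : F ⊆ (Fintype.piFinset (fun _ : Fin n => I)).biUnion (fun e =>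
      (I.filter (fun z => (i₀.insertNth z e : Fin (n + 1) → ℤ) ∈ F)).image
        (fun z => (i₀.insertNth z e : Fin (n + 1) → ℤ))) := by
    intro d hd
    rw [mem_biUnion]
    refine ⟨i₀.removeNth d, ?_, ?_⟩
    · rw [Fintype.mem_piFinset]
      intro j
      exact hI d hd _
    · rw [mem_image]
      refine ⟨d i₀, ?_, Fin.insertNth_self_removeNth i₀ d⟩
      rw [mem_filter]
      refine ⟨hI d hd _, ?_⟩
      rw [Fin.insertNth_self_removeNth]
      exact hd
  have h1 := (card_le_card hsub).trans card_biUnion_le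
  have h2 : (F.card : ℝ) ≤ ∑ e ∈ Fintype.piFinset (fun _ : Fin n => I), B := by
    have h3 : (F.card : ℝ) ≤ ∑ e ∈ Fintype.piFinset (fun _ : Fin n => I),
        (((I.filter (fun z => (i₀.insertNth z e : Fin (n + 1) → ℤ) ∈ F)).image
        (fun z => (i₀.insertNth z e : Fin (n + 1) → ℤ))).card : ℝ) := by exact_mod_cast h1
    refine h3.trans (sum_le_sum fun e _ => ?_)
    exact (Nat.cast_le.2 card_image_le).trans (hB e)
  refine h2.trans (le_of_eq ?_)
  rw [sum_const, nsmul_eq_mul, Fintype.card_piFinset_const]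
  push_cast
  rfl

/-- the sum of the symbols `(a | p)` over the odd primes `p ≤ y` in `Q` -/
noncomputable def js (Q : Set ℕ) (a : ℤ) (y : ℕ) : ℤ := ∑ p ∈ oq Q y, jacobiSym a p

lemma js_four (Q : Set ℕ) (D m : ℤ) (y : ℕ) : js Q (D * (4 * m)) y = js Q (D * m) y := by
  unfold js
  refine sum_congr rfl fun p hp => ?_
  classical
  have hp' : p ∈ (range (y + 1)).filter (fun p => p.Prime ∧ p ≠ 2 ∧ p ∈ Q) := hp
  rw [mem_filter] at hp'
  rw [show D * (4 * m) = 4 * (D * m) by ring]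
  exact SPL.jac_four _ _ hp'.2.1 hp'.2.2.1

open Classical in
/-- the fundamental discriminants with a large sum, twisted by any `D` -/
lemma one (Q : Set ℕ) (X y : ℕ) (V B : ℝ)
    (hb : ∀ D : ℤ, (((Y549.SP.sq X).filter (fun m => V ≤ (|sd Q D m y| : ℝ))).card : ℝ) ≤ B) (D : ℤ) :
    ({d ∈ Icc (-(X : ℤ)) X | Fund d ∧ V ≤ (|js Q (D * d) y| : ℝ)}.card : ℝ) ≤ 4 * B := by
  classical
  have hsub : (Icc (-(X : ℤ)) X).filter (fun d => Fund d ∧ V ≤ (|js Q (D * d) y| : ℝ)) ⊆
      ((((Y549.SP.sq X).filter (fun m => V ≤ (|sd Q D m y| : ℝ))).image (fun m : ℕ => (m : ℤ))) ∪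
       (((Y549.SP.sq X).filter (fun m => V ≤ (|sd Q D m y| : ℝ))).image (fun m : ℕ => 4 * (m : ℤ)))) ∪
      ((((Y549.SP.sq X).filter (fun m => V ≤ (|sd Q (-D) m y| : ℝ))).image (fun m : ℕ => -(m : ℤ))) ∪
       (((Y549.SP.sq X).filter (fun m => V ≤ (|sd Q (-D) m y| : ℝ))).image (fun m : ℕ => -(4 * (m : ℤ))))) := by
    intro d hd
    rw [mem_filter, mem_Icc] at hd
    obtain ⟨⟨hd1, hd2⟩, hF, hV⟩ := hd
    rcases hF with ⟨h1, h2⟩ | ⟨m, h1, h2, h3⟩
    · have h0 : d ≠ 0 := by rintro rfl; norm_num at h1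
      have hsq : d.natAbs ∈ Y549.SP.sq X := by
        unfold Y549.SP.sq
        rw [mem_filter, mem_Icc]
        exact ⟨⟨by omega, by omega⟩, Int.squarefree_natAbs.mpr h2⟩
      rcases le_total 0 d with h4 | h4
      · refine mem_union_left _ (mem_union_left _ (mem_image.2 ⟨d.natAbs, ?_, by omega⟩))
        rw [mem_filter]
        refine ⟨hsq, ?_⟩
        have e : sd Q D d.natAbs y = js Q (D * d) y := by
          unfold sd js
          rw [show ((d.natAbs : ℕ) : ℤ) = d by omega]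
        rw [e]
        exact hV
      · refine mem_union_right _ (mem_union_left _ (mem_image.2 ⟨d.natAbs, ?_, by omega⟩))
        rw [mem_filter]
        refine ⟨hsq, ?_⟩
        have e : sd Q (-D) d.natAbs y = js Q (D * d) y := by
          unfold sd js
          rw [show ((d.natAbs : ℕ) : ℤ) = -d by omega, neg_mul_neg]
        rw [e]
        exact hV
    · have h0 : m ≠ 0 := by rintro rfl; norm_num at h2
      have hsq : m.natAbs ∈ Y549.SP.sq X := by
        unfold Y549.SP.sq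
        rw [mem_filter, mem_Icc]
        exact ⟨⟨by omega, by omega⟩, Int.squarefree_natAbs.mpr h3⟩
      rw [h1, js_four] at hV
      rcases le_total 0 m with h4 | h4
      · refine mem_union_left _ (mem_union_right _ (mem_image.2 ⟨m.natAbs, ?_, by omega⟩))
        rw [mem_filter]
        refine ⟨hsq, ?_⟩
        have e : sd Q D m.natAbs y = js Q (D * m) y := by
          unfold sd js
          rw [show ((m.natAbs : ℕ) : ℤ) = m by omega]
        rw [e]
        exact hV
      · refine mem_union_right _ (mem_union_right _ (mem_image.2 ⟨m.natAbs, ?_, by omega⟩))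
        rw [mem_filter]
        refine ⟨hsq, ?_⟩
        have e : sd Q (-D) m.natAbs y = js Q (D * m) y := by
          unfold sd js
          rw [show ((m.natAbs : ℕ) : ℤ) = -m by omega, neg_mul_neg]
        rw [e]
        exact hV
  have h1 := (card_le_card hsub).trans ((card_union_le _ _).trans
    (Nat.add_le_add (card_union_le _ _) (card_union_le _ _)))
  have h2 := h1.trans (Nat.add_le_add (Nat.add_le_add card_image_le card_image_le)
    (Nat.add_le_add card_image_le card_image_le))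
  have h3 : ({d ∈ Icc (-(X : ℤ)) X | Fund d ∧ V ≤ (|js Q (D * d) y| : ℝ)}.card : ℝ) ≤
      (((Y549.SP.sq X).filter (fun m => V ≤ (|sd Q D m y| : ℝ))).card +
       ((Y549.SP.sq X).filter (fun m => V ≤ (|sd Q D m y| : ℝ))).card) +
      (((Y549.SP.sq X).filter (fun m => V ≤ (|sd Q (-D) m y| : ℝ))).card +
       ((Y549.SP.sq X).filter (fun m => V ≤ (|sd Q (-D) m y| : ℝ))).card) := by exact_mod_cast h2
  have h4 := hb D
  have h5 := hb (-D)
  linarith

/-- the product of the symbols over a set of places -/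
noncomputable def jS {k : ℕ} (Q : Set ℕ) (S : Finset (Fin k)) (d : Fin k → ℤ) (y : ℕ) : ℤ :=
  js Q (∏ i ∈ S, d i) y

open Classical in
/-- the tuples with a large sum -/
lemma tuples (Q : Set ℕ) (X y k : ℕ) (V B : ℝ)
    (hb : ∀ D : ℤ, (((Y549.SP.sq X).filter (fun m => V ≤ (|sd Q D m y| : ℝ))).card : ℝ) ≤ B)
    (S : Finset (Fin k)) (hS : S.Nonempty) :
    (((Fintype.piFinset (fun _ : Fin k => Icc (-(X : ℤ)) X)).filter
      (fun d : Fin k → ℤ => (∀ i, Fund (d i)) ∧ V ≤ (|jS Q S d y| : ℝ))).card : ℝ) ≤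
      (2 * X + 1 : ℝ) ^ (k - 1) * (4 * B) := by
  classical
  obtain ⟨i₀, hi₀⟩ := hS
  obtain ⟨n, rfl⟩ : ∃ n, k = n + 1 := by
    rcases k with _ | n
    · exact i₀.elim0
    · exact ⟨n, rfl⟩
  have hI : ((Icc (-(X : ℤ)) X).card : ℝ) = 2 * X + 1 := by
    rw [Int.card_Icc]
    have : ((X : ℤ) + 1 - -(X : ℤ)).toNat = 2 * X + 1 := by omega
    rw [this]
    push_cast
    ring
  rw [← hI, Nat.add_sub_cancel]
  refine fiber_count n i₀ _ _ _ ?_ ?_
  · intro d hd i
    rw [mem_filter, Fintype.mem_piFinset] at hd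
    exact hd.1 i
  · intro e
    obtain ⟨D, hD⟩ : ∃ D : ℤ, D = ∏ i ∈ S.erase i₀, (i₀.insertNth (1 : ℤ) e : Fin (n + 1) → ℤ) i :=
      ⟨_, rfl⟩
    refine le_trans ?_ (one Q X y V B hb D)
    rw [Nat.cast_le]
    refine card_le_card ?_
    intro z hz
    rw [mem_filter, mem_filter] at hz
    obtain ⟨h1, h2, h3, h4⟩ := hz
    rw [mem_filter]
    refine ⟨h1, ?_, ?_⟩
    · have := h3 i₀
      rwa [Fin.insertNth_apply_same] at this
    · have e1 : ∏ i ∈ S, (i₀.insertNth z e : Fin (n + 1) → ℤ) i = D * z := by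
        rw [← Finset.prod_erase_mul _ _ hi₀, Fin.insertNth_apply_same, hD]
        congr 1
        refine prod_congr rfl fun i hi => ?_
        have hne : i ≠ i₀ := (mem_erase.1 hi).1
        obtain ⟨j, rfl⟩ := Fin.exists_succAbove_eq hne
        rw [Fin.insertNth_apply_succAbove, Fin.insertNth_apply_succAbove]
      unfold jS at h4
      rw [e1] at h4
      exact h4

end Pool.Agent.U61.JS
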