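import Pool.Agent.U61.JS.A

/-!
# Joint splitting in several quadratic fields: patterns and character sums (helper61)
-/

set_option autoImplicit false

namespace Pool.Agent.U61.JS

open Finset Filter Pool.Agent.Y549.SP

/-- `p` is unramified in all the fields of discriminants `d i` and splits exactly in those with
`s i = true` -/
def Pt {k : ℕ} (d : Fin k → ℤ) (s : Fin k → Bool) (p : ℕ) : Prop :=
  ∀ i, ¬ (p : ℤ) ∣ d i ∧ ((∃ x : ℤ, (4 * (p : ℤ)) ∣ x ^ 2 - d i) ↔ s i = true)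

/-- the sign -/
def sg (b : Bool) : ℤ := if b then 1 else -1

lemma fund_mod {d : ℤ} (h : Fund d) : d % 4 = 0 ∨ d % 4 = 1 := by
  rcases h with ⟨h1, _⟩ | ⟨m, h1, _, _⟩
  · exact Or.inr h1
  · exact Or.inl (by omega)

lemma fund_ne {d : ℤ} (h : Fund d) : d ≠ 0 := by
  rintro rfl
  rcases h with ⟨h1, _⟩ | ⟨m, h1, h2, _⟩
  · norm_num at h1
  · omega

lemma jac_prod {k : ℕ} (S : Finset (Fin k)) (d : Fin k → ℤ) (p : ℕ) :
    jacobiSym (∏ i ∈ S, d i) p = ∏ i ∈ S, jacobiSym (d i) p := by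
  classical
  induction S using Finset.induction_on with
  | empty => simp [jacobiSym.one_left]
  | insert a S ha ih => rw [prod_insert ha, prod_insert ha, jacobiSym.mul_left, ih]

lemma fac_le {k : ℕ} (d : Fin k → ℤ) (s : Fin k → Bool) (p : ℕ) :
    |((∏ i, (1 + sg (s i) * jacobiSym (d i) p) : ℤ) : ℝ)| ≤ 2 ^ k := by
  push_cast
  rw [abs_prod]
  calc _ ≤ ∏ i : Fin k, (2 : ℝ) := by
        refine prod_le_prod (fun i _ => abs_nonneg _) fun i _ => ?_
        unfold sg
        rcases jacobiSym.trichotomy (d i) p with h | h | h <;> rw [h] <;> split_ifs <;> norm_num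
    _ = 2 ^ k := by simp

lemma fac_eq {k : ℕ} (d : Fin k → ℤ) (hd : ∀ i, Fund (d i)) (s : Fin k → Bool) (p : ℕ)
    (hp : p.Prime) (hp2 : p ≠ 2) (hpd : ∀ i, ¬ (p : ℤ) ∣ d i) [Decidable (Pt d s p)] :
    ((∏ i, (1 + sg (s i) * jacobiSym (d i) p) : ℤ) : ℝ) = 2 ^ k * (if Pt d s p then 1 else 0) := by
  have hj : ∀ i, (jacobiSym (d i) p = 1 ∧ ∃ x : ℤ, (4 * (p : ℤ)) ∣ x ^ 2 - d i) ∨
      (jacobiSym (d i) p = -1 ∧ ¬ ∃ x : ℤ, (4 * (p : ℤ)) ∣ x ^ 2 - d i) := by
    intro i
    have hiff := SPL.split_iff (d i) (fund_mod (hd i)) p hp hp2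
    rcases jacobiSym.trichotomy (d i) p with h | h | h
    · exfalso
      have : Fact p.Prime := ⟨hp⟩
      rw [← jacobiSym.legendreSym.to_jacobiSym, legendreSym.eq_zero_iff,
        ZMod.intCast_zmod_eq_zero_iff_dvd] at h
      exact hpd i h
    · exact Or.inl ⟨h, (hiff.2 h).2⟩
    · refine Or.inr ⟨h, fun hx => ?_⟩
      rw [hiff.1 ⟨hpd i, hx⟩] at h
      norm_num at h
  by_cases hP : Pt d s p
  · rw [if_pos hP, mul_one]
    have : ∀ i ∈ (univ : Finset (Fin k)), 1 + sg (s i) * jacobiSym (d i) p = 2 := by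
      intro i _
      have h1 := (hP i).2
      rcases hj i with ⟨h2, h3⟩ | ⟨h2, h3⟩
      · rw [h2, h1.1 h3]; rfl
      · have : s i = false := by
          by_contra h4
          exact h3 (h1.2 (by simpa using h4))
        rw [h2, this]; rfl
    rw [prod_congr rfl this]
    simp
  · rw [if_neg hP, mul_zero]
    have : ∃ i, 1 + sg (s i) * jacobiSym (d i) p = 0 := by
      by_contra hcon
      push Not at hcon
      apply hP
      intro i
      refine ⟨hpd i, ?_⟩
      have h1 := hcon i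
      rcases hj i with ⟨h2, h3⟩ | ⟨h2, h3⟩
      · refine ⟨fun _ => ?_, fun _ => h3⟩
        by_contra h4
        apply h1
        rw [h2, show s i = false by simpa using h4]
        rfl
      · refine ⟨fun h => absurd h h3, fun h4 => ?_⟩
        exfalso
        apply h1
        rw [h2, h4]
        rfl
    obtain ⟨i, hi⟩ := this
    rw [prod_eq_zero (mem_univ i) hi]
    simp

/-- the product, expanded -/
lemma expand {k : ℕ} (Q : Set ℕ) (d : Fin k → ℤ) (s : Fin k → Bool) (y : ℕ) :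
    |∑ p ∈ oq Q y, ((∏ i, (1 + sg (s i) * jacobiSym (d i) p) : ℤ) : ℝ) - (oq Q y).card| ≤
      ∑ S ∈ (univ : Finset (Finset (Fin k))).erase ∅, |(jS Q S d y : ℝ)| := by
  classical
  have e1 : ∀ p : ℕ, (∏ i, (1 + sg (s i) * jacobiSym (d i) p) : ℤ) =
      ∑ S : Finset (Fin k), (∏ i ∈ S, sg (s i)) * jacobiSym (∏ i ∈ S, d i) p := by
    intro p
    rw [prod_one_add, powerset_univ]
    refine sum_congr rfl fun S _ => ?_
    rw [prod_mul_distrib, jac_prod]
  have e2 : ∑ p ∈ oq Q y, ((∏ i, (1 + sg (s i) * jacobiSym (d i) p) : ℤ) : ℝ) =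
      ∑ S : Finset (Fin k), ((∏ i ∈ S, sg (s i) : ℤ) : ℝ) * (jS Q S d y : ℝ) := by
    rw [← Int.cast_sum]
    rw [sum_congr rfl (fun p _ => e1 p), sum_comm]
    push_cast
    refine sum_congr rfl fun S _ => ?_
    rw [← mul_sum]
    congr 1
    unfold jS js
    push_cast
    rfl
  have e3 : ((∏ i ∈ (∅ : Finset (Fin k)), sg (s i) : ℤ) : ℝ) * (jS Q ∅ d y : ℝ) = (oq Q y).card := by
    unfold jS js
    simp [jacobiSym.one_left]
  rw [e2, ← add_sum_erase _ _ (mem_univ (∅ : Finset (Fin k))), e3, add_sub_cancel_left]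
  refine (abs_sum_le_sum_abs _ _).trans (sum_le_sum fun S _ => ?_)
  rw [abs_mul]
  have h : |((∏ i ∈ S, sg (s i) : ℤ) : ℝ)| = 1 := by
    push_cast
    rw [abs_prod]
    refine prod_eq_one fun i _ => ?_
    unfold sg
    split_ifs <;> norm_num
  rw [h, one_mul]

/-- the primes `p ≤ y` in `Q` with the pattern `s` -/
def patIn {k : ℕ} (Q : Set ℕ) (d : Fin k → ℤ) (s : Fin k → Bool) (y : ℕ) : Set ℕ :=
  {p | p.Prime ∧ p ≤ y ∧ p ∈ Q ∧ Pt d s p}

open Classical in
theorem pattern_count {k : ℕ} (Q : Set ℕ) (d : Fin k → ℤ) (hd : ∀ i, Fund (d i))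
    (s : Fin k → Bool) (y : ℕ) :
    |2 ^ k * ((patIn Q d s y).ncard : ℝ) - (primesIn Q y).ncard| ≤
      2 ^ k * (1 + ∑ i, 2 * Real.log |(d i : ℝ)|) + 1 +
        ∑ S ∈ (univ : Finset (Finset (Fin k))).erase ∅, |(jS Q S d y : ℝ)| := by
  have e1 : primesIn Q y = ((SPL.pq Q y : Finset ℕ) : Set ℕ) := by
    ext p
    simp only [primesIn, SPL.pq, Set.mem_ofPred_eq, coe_filter, mem_range]
    constructor
    · rintro ⟨h1, h2, h3⟩
      exact ⟨by omega, h1, h3⟩
    · rintro ⟨h1, h2, h3⟩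
      exact ⟨h2, by omega, h3⟩
  have e2 : patIn Q d s y = (((SPL.pq Q y).filter (fun p => Pt d s p) : Finset ℕ) : Set ℕ) := by
    ext p
    simp only [patIn, SPL.pq, Set.mem_ofPred_eq, coe_filter, mem_filter, mem_range]
    constructor
    · rintro ⟨h1, h2, h3, h4⟩
      exact ⟨⟨by omega, h1, h3⟩, h4⟩
    · rintro ⟨⟨h1, h2, h3⟩, h4⟩
      exact ⟨h2, by omega, h3, h4⟩
  rw [e1, e2, Set.ncard_coe_finset, Set.ncard_coe_finset]
  set P := SPL.pq Q y with hP
  have hPm : ∀ p, p ∈ P → p.Prime := fun p hp => by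
    rw [hP, SPL.pq, mem_filter] at hp
    exact hp.2.1
  set f : ℕ → ℝ := fun p => ((∏ i, (1 + sg (s i) * jacobiSym (d i) p) : ℤ) : ℝ) with hf
  have hoq : oq Q y = P.filter (fun p => ¬ p = 2) := by
    ext p
    rw [hP, oq, SPL.pq, mem_filter, mem_filter, mem_filter]
    tauto
  have h1 : 2 ^ k * ((P.filter (fun p => Pt d s p)).card : ℝ) =
      ∑ p ∈ P, 2 ^ k * (if Pt d s p then (1 : ℝ) else 0) := by
    rw [← mul_sum, ← sum_filter, sum_const, nsmul_eq_mul, mul_one]
  have h2 : ∑ p ∈ oq Q y, f p = ∑ p ∈ P, (if p = 2 then (0 : ℝ) else f p) := by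
    rw [hoq, sum_filter]
    refine sum_congr rfl fun p _ => ?_
    by_cases h : p = 2
    · rw [if_neg (fun h' => h' h), if_pos h]
    · rw [if_pos h, if_neg h]
  have h3 : ∀ p ∈ P, |2 ^ k * (if Pt d s p then (1 : ℝ) else 0) - (if p = 2 then (0 : ℝ) else f p)| ≤
      2 ^ k * ((if p = 2 then (1 : ℝ) else 0) + ∑ i, (if (p : ℤ) ∣ d i then (1 : ℝ) else 0)) := by
    intro p hp
    have hpp := hPm p hp
    have hs0 : 0 ≤ ∑ i, (if (p : ℤ) ∣ d i then (1 : ℝ) else 0) :=
      sum_nonneg fun i _ => by split_ifs <;> norm_num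
    have h2k : (0 : ℝ) < 2 ^ k := by positivity
    by_cases hp2 : p = 2
    · rw [if_pos hp2, if_pos hp2, sub_zero]
      have h4 : |2 ^ k * (if Pt d s p then (1 : ℝ) else 0)| ≤ 2 ^ k * 1 := by
        rw [abs_mul, abs_of_pos h2k]
        refine mul_le_mul_of_nonneg_left ?_ h2k.le
        split_ifs <;> norm_num
      refine h4.trans (mul_le_mul_of_nonneg_left ?_ h2k.le)
      linarith
    · rw [if_neg hp2, if_neg hp2, zero_add]
      by_cases hpd : ∀ i, ¬ (p : ℤ) ∣ d i
      · rw [hf]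
        show |2 ^ k * (if Pt d s p then (1 : ℝ) else 0) -
          ((∏ i, (1 + sg (s i) * jacobiSym (d i) p) : ℤ) : ℝ)| ≤ _
        rw [fac_eq d hd s p hpp hp2 hpd, sub_self, abs_zero]
        positivity
      · push Not at hpd
        obtain ⟨i, hi⟩ := hpd
        have hnP : ¬ Pt d s p := fun h => (h i).1 hi
        rw [if_neg hnP, mul_zero, zero_sub, abs_neg]
        refine (fac_le d s p).trans ?_
        have h4 : (1 : ℝ) ≤ ∑ i, (if (p : ℤ) ∣ d i then (1 : ℝ) else 0) := by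
          have h5 := single_le_sum (f := fun i => (if (p : ℤ) ∣ d i then (1 : ℝ) else 0))
            (fun i _ => by split_ifs <;> norm_num) (mem_univ i)
          rw [if_pos hi] at h5
          exact h5
        nlinarith
  have h4 : |∑ p ∈ P, (2 ^ k * (if Pt d s p then (1 : ℝ) else 0) -
      (if p = 2 then (0 : ℝ) else f p))| ≤ 2 ^ k * (1 + ∑ i, 2 * Real.log |(d i : ℝ)|) := by
    refine (abs_sum_le_sum_abs _ _).trans ((sum_le_sum h3).trans ?_)
    rw [← mul_sum]
    refine mul_le_mul_of_nonneg_left ?_ (by positivity)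
    rw [sum_add_distrib]
    refine add_le_add ?_ ?_
    · rw [← sum_filter, sum_const, nsmul_eq_mul, mul_one]
      have h6 : P.filter (fun p => p = 2) ⊆ {2} := by
        intro p hp
        rw [mem_filter] at hp
        exact mem_singleton.mpr hp.2
      have := card_le_card h6
      rw [card_singleton] at this
      exact_mod_cast this
    · rw [sum_comm]
      refine sum_le_sum fun i _ => ?_
      rw [← sum_filter, sum_const, nsmul_eq_mul, mul_one]
      have hd0 : (d i).natAbs ≠ 0 := Int.natAbs_ne_zero.2 (fund_ne (hd i))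
      have h6 : P.filter (fun p : ℕ => (p : ℤ) ∣ d i) ⊆ (d i).natAbs.primeFactors := by
        intro p hp
        rw [mem_filter] at hp
        refine Nat.mem_primeFactors.mpr ⟨hPm p hp.1, ?_, hd0⟩
        exact Int.natCast_dvd.1 hp.2
      have h7 := card_le_card h6
      have h8 := SPL.card_primeFactors_le (d i).natAbs hd0
      have h9 : (((d i).natAbs : ℕ) : ℝ) = |(d i : ℝ)| := by rw [Nat.cast_natAbs, Int.cast_abs]
      rw [h9] at h8
      exact (Nat.cast_le.2 h7).trans h8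
  have h5 := expand Q d s y
  have h6 : |(oq Q y).card - (P.card : ℝ)| ≤ 1 := by
    have h7 : (P.filter (fun p => p = 2)).card + (P.filter (fun p => ¬ p = 2)).card = P.card :=
      card_filter_add_card_filter_not (s := P) (fun p => p = 2)
    have h8 : (P.filter (fun p => p = 2)).card ≤ 1 := by
      have h6 : P.filter (fun p => p = 2) ⊆ {2} := by
        intro p hp
        rw [mem_filter] at hp
        exact mem_singleton.mpr hp.2
      simpa using card_le_card h6
    rw [hoq, abs_le]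
    have h9 : ((P.filter (fun p => ¬ p = 2)).card : ℝ) ≤ P.card := by
      exact_mod_cast (by omega : (P.filter (fun p => ¬ p = 2)).card ≤ P.card)
    have h10 : (P.card : ℝ) ≤ (P.filter (fun p => ¬ p = 2)).card + 1 := by
      exact_mod_cast (by omega : P.card ≤ (P.filter (fun p => ¬ p = 2)).card + 1)
    constructor <;> linarith
  have h7 : 2 ^ k * ((P.filter (fun p => Pt d s p)).card : ℝ) - (P.card : ℝ) =
      ∑ p ∈ P, (2 ^ k * (if Pt d s p then (1 : ℝ) else 0) - (if p = 2 then (0 : ℝ) else f p)) +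
      (∑ p ∈ oq Q y, f p - (oq Q y).card) + ((oq Q y).card - (P.card : ℝ)) := by
    rw [h1, h2, sum_sub_distrib]
    ring
  rw [h7]
  have h8 := abs_add_le (∑ p ∈ P, (2 ^ k * (if Pt d s p then (1 : ℝ) else 0) -
    (if p = 2 then (0 : ℝ) else f p)) + (∑ p ∈ oq Q y, f p - (oq Q y).card))
    ((oq Q y).card - (P.card : ℝ))
  have h9 := abs_add_le (∑ p ∈ P, (2 ^ k * (if Pt d s p then (1 : ℝ) else 0) -
    (if p = 2 then (0 : ℝ) else f p))) (∑ p ∈ oq Q y, f p - (oq Q y).card)
  have h10 : |∑ p ∈ oq Q y, f p - (oq Q y).card| ≤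
    ∑ S ∈ (univ : Finset (Finset (Fin k))).erase ∅, |(jS Q S d y : ℝ)| := h5
  linarith

end Pool.Agent.U61.JS
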