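import Pool.Agent.U61.JS.B

/-!
# Joint splitting in several quadratic fields: almost all tuples (helper61)
-/

set_option autoImplicit false

namespace Pool.Agent.U61.JS

open Finset Filter Pool.Agent.Y549.SP

lemma eta_le {Q : Set ℕ} {y : ℕ} : ((oq Q y).card : ℝ) ≤ ((primesIn Q y).ncard : ℝ) := by
  exact_mod_cast CNT2.card_oq_le Q y

theorem joint (k : ℕ) (hk : 1 ≤ k) (A ρ η ε : ℝ) (Q : Set ℕ) (hρ : 0 < ρ) (hρ1 : ρ ≤ 1)
    (hAρ : 1 < A * ρ) (hη : 0 < η) (hε : 0 < ε) (hQ : Thick Q ρ) :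
    ∃ c K : ℝ, 0 < c ∧ 0 < K ∧ ∀ X : ℕ, 1 ≤ X → ∀ T : Finset (Fin k → ℤ),
      (∀ d ∈ T, (∀ i, Fund (d i) ∧ |d i| ≤ X) ∧ ∃ (y : ℕ) (s : Fin k → Bool),
        Real.log X ^ A ≤ y ∧ (y : ℝ) ≤ (X : ℝ) ^ c ∧
        η * (primesIn Q y).ncard < |2 ^ k * ((patIn Q d s y).ncard : ℝ) - (primesIn Q y).ncard|) →
      (T.card : ℝ) ≤ K * (X : ℝ) ^ (k - ρ + 1 / A + ε) := by
  classical
  obtain ⟨κ₀, hκ₀, y₀, hy₀⟩ := hQ
  have hA1 : 1 < A := by nlinarith
  have hA0 : (0 : ℝ) < A := by linarith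
  obtain ⟨κ, hκdef⟩ : ∃ κ : ℝ, κ = min κ₀ 1 / 4 := ⟨_, rfl⟩
  obtain ⟨η₁, hη₁def⟩ : ∃ η₁ : ℝ, η₁ = min η 1 := ⟨_, rfl⟩
  have hκ : 0 < κ := by
    have := lt_min hκ₀ one_pos
    rw [hκdef]
    positivity
  have hκ1 : κ ≤ 1 := by
    have := min_le_right κ₀ (1 : ℝ)
    rw [hκdef]; linarith
  have hη₁ : 0 < η₁ := by rw [hη₁def]; exact lt_min hη one_pos
  have hη₁1 : η₁ ≤ 1 := by rw [hη₁def]; exact min_le_right _ _
  have hη₁η : η₁ ≤ η := by rw [hη₁def]; exact min_le_left _ _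
  have h2k : (1 : ℝ) ≤ 2 ^ k := one_le_pow₀ (by norm_num)
  obtain ⟨η₂, hη₂def⟩ : ∃ η₂ : ℝ, η₂ = η₁ / (2 * 2 ^ k) := ⟨_, rfl⟩
  have hη₂ : 0 < η₂ := by rw [hη₂def]; positivity
  have hη₂1 : η₂ ≤ 1 := by
    rw [hη₂def, div_le_one (by positivity)]
    linarith
  obtain ⟨c₀, K₀, hc₀, hK₀, hbad⟩ := bad3 A ρ κ η₂ (ε / 2) hρ hρ1 hAρ hκ hκ1 hη₂ hη₂1 (by positivity)
  obtain ⟨C, hCdef⟩ : ∃ C : ℝ, C = 2 ^ k * (1 + k * 2) + 1 := ⟨_, rfl⟩
  have hC : 0 < C := by rw [hCdef]; positivity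
  obtain ⟨y₁, hy₁⟩ := eventually_atTop.1 (CNT2.step1 hρ hκ₀ hy₀)
  obtain ⟨y₂, hy₂⟩ := eventually_atTop.1 (CNT2.step3 (e := 3 / C * (η₁ / 2 * κ)) hA0 hAρ
    (by positivity))
  have hlogt : Tendsto (fun t : ℕ => Real.log (t : ℝ)) atTop atTop :=
    Real.tendsto_log_atTop.comp tendsto_natCast_atTop_atTop
  obtain ⟨X₀, hX₀⟩ := eventually_atTop.1
    (hlogt.eventually_ge_atTop (max 1 ((max (max y₁ y₂) 2 : ℕ) : ℝ)))
  obtain ⟨c, hcdef⟩ : ∃ c : ℝ, c = min c₀ (ε / 2) := ⟨_, rfl⟩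
  have hc : 0 < c := by rw [hcdef]; exact lt_min hc₀ (by positivity)
  obtain ⟨G, hG⟩ : ∃ G : ℝ, G = 2 ^ k * (3 ^ k * (4 * K₀)) := ⟨_, rfl⟩
  have hG0 : 0 < G := by rw [hG]; positivity
  refine ⟨c, (2 * X₀ + 1) ^ k + 2 * G, hc, by positivity, ?_⟩
  intro X hX T hT
  have hX1 : (1 : ℝ) ≤ X := by exact_mod_cast hX
  have hXp : (0 : ℝ) < X := by linarith
  have hk1 : (1 : ℝ) ≤ k := by exact_mod_cast hk
  have hiA : 0 < 1 / A := by positivity
  have hbig : (1 : ℝ) ≤ (X : ℝ) ^ (k - ρ + 1 / A + ε) := Real.one_le_rpow hX1 (by linarith)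
  have hTpi : T ⊆ Fintype.piFinset (fun _ : Fin k => Icc (-(X : ℤ)) X) := by
    intro d hd
    rw [Fintype.mem_piFinset]
    intro i
    have := ((hT d hd).1 i).2
    rw [abs_le] at this
    rw [mem_Icc]
    exact this
  have hIc : ((Icc (-(X : ℤ)) X).card : ℝ) = 2 * X + 1 := by
    rw [Int.card_Icc]
    have : ((X : ℤ) + 1 - -(X : ℤ)).toNat = 2 * X + 1 := by omega
    rw [this]
    push_cast
    ring
  rcases lt_or_ge X X₀ with hlt | hge
  · -- small `X`
    have h1 : (T.card : ℝ) ≤ (2 * X + 1) ^ k := by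
      have h2 := card_le_card hTpi
      rw [Fintype.card_piFinset_const] at h2
      have h3 : (T.card : ℝ) ≤ ((Icc (-(X : ℤ)) X).card : ℝ) ^ k := by exact_mod_cast h2
      rwa [hIc] at h3
    have h2 : ((2 : ℝ) * X + 1) ^ k ≤ (2 * X₀ + 1) ^ k := by
      refine pow_le_pow_left₀ (by positivity) ?_ k
      have : (X : ℝ) ≤ X₀ := by exact_mod_cast hlt.le
      linarith
    have h3 : (0 : ℝ) ≤ (2 * X₀ + 1) ^ k := by positivity
    nlinarith
  · -- the bad tuples
    have hlogX := hX₀ X hge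
    have hlog1 : 1 ≤ Real.log (X : ℝ) := (le_max_left _ _).trans hlogX
    have hlogM : ((max (max y₁ y₂) 2 : ℕ) : ℝ) ≤ Real.log (X : ℝ) := (le_max_right _ _).trans hlogX
    set Bd : ℕ → Finset (Fin k) → Finset (Fin k → ℤ) := fun y S =>
      (Fintype.piFinset (fun _ : Fin k => Icc (-(X : ℤ)) X)).filter
        (fun d : Fin k → ℤ => (∀ i, Fund (d i)) ∧ η₂ * (oq Q y).card ≤ (|jS Q S d y| : ℝ)) with hBd
    set Y : Finset ℕ := (range (⌊(X : ℝ) ^ c⌋₊ + 1)).filter (fun y =>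
      κ * (y : ℝ) ^ ρ ≤ (oq Q y).card * Real.log y ∧ (Real.log X / A) ^ A ≤ (y : ℝ)) with hYdef
    have hYc : ∀ y ∈ Y, (y : ℝ) ≤ (X : ℝ) ^ c := by
      intro y hy
      rw [hYdef, mem_filter, mem_range] at hy
      have h1 : y ≤ ⌊(X : ℝ) ^ c⌋₊ := by omega
      exact (Nat.cast_le.2 h1).trans (Nat.floor_le (by positivity))
    obtain ⟨E, hE⟩ : ∃ E : ℝ, E = K₀ * (X : ℝ) ^ (1 - ρ + 1 / A + ε / 2) := ⟨_, rfl⟩
    have hE0 : 0 < E := by rw [hE]; positivity
    have hBc : ∀ y ∈ Y, ∀ S ∈ (univ : Finset (Finset (Fin k))).erase ∅,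
        ((Bd y S).card : ℝ) ≤ (2 * X + 1 : ℝ) ^ (k - 1) * (4 * E) := by
      intro y hy S hS
      have h2 := hYc y hy
      rw [hYdef, mem_filter] at hy
      refine tuples Q X y k _ E (fun D => ?_) S (nonempty_iff_ne_empty.2 (mem_erase.1 hS).1)
      rw [hE]
      refine hbad D Q X y hX hy.2.2 (h2.trans ?_) hy.2.1
      exact Real.rpow_le_rpow_of_exponent_le hX1 (by rw [hcdef]; exact min_le_left _ _)
    have key : T ⊆ Y.biUnion (fun y => ((univ : Finset (Finset (Fin k))).erase ∅).biUnion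
        (fun S => Bd y S)) := by
      intro d hd
      obtain ⟨hdF, y, s, hyA, hyc, hyb⟩ := hT d hd
      have hlogy : Real.log (X : ℝ) ≤ (y : ℝ) := by
        refine le_trans ?_ hyA
        calc Real.log (X : ℝ) = Real.log (X : ℝ) ^ (1 : ℝ) := (Real.rpow_one _).symm
          _ ≤ _ := Real.rpow_le_rpow_of_exponent_le hlog1 hA1.le
      have hMy : max (max y₁ y₂) 2 ≤ y := by
        have h3 : ((max (max y₁ y₂) 2 : ℕ) : ℝ) ≤ (y : ℝ) := hlogM.trans hlogy
        exact_mod_cast h3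
      have hyy1 : y₁ ≤ y := ((le_max_left _ _).trans (le_max_left _ _)).trans hMy
      have hyy2 : y₂ ≤ y := ((le_max_right _ _).trans (le_max_left _ _)).trans hMy
      have hyy3 : 2 ≤ y := (le_max_right _ _).trans hMy
      have hy2' : (2 : ℝ) ≤ y := by exact_mod_cast hyy3
      have hly : 0 < Real.log (y : ℝ) := Real.log_pos (by linarith)
      have hk1' := hy₁ y hyy1
      rw [← hκdef] at hk1'
      have hk2 := hy₂ y hyy2
      have hXy : (Real.log X / A) ^ A ≤ (y : ℝ) := by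
        refine le_trans (Real.rpow_le_rpow ?_ ?_ hA0.le) hyA
        · exact div_nonneg (Real.log_nonneg hX1) hA0.le
        · exact div_le_self (by linarith) hA1.le
      have hyY : y ∈ Y := by
        rw [hYdef, mem_filter, mem_range]
        refine ⟨?_, hk1', hXy⟩
        have := Nat.le_floor hyc
        omega
      have hsqy : Real.log (X : ℝ) ≤ (y : ℝ) ^ (1 / A) := by
        have h20 := Real.rpow_le_rpow (Real.rpow_nonneg (by linarith) A) hyA
          (show 0 ≤ 1 / A by positivity)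
        rwa [← Real.rpow_mul (by linarith), mul_one_div_cancel hA0.ne', Real.rpow_one] at h20
      have hone : (1 : ℝ) ≤ (y : ℝ) ^ (1 / A) := Real.one_le_rpow (by linarith) hiA.le
      have h7 : C * (y : ℝ) ^ (1 / A) ≤ η₁ / 2 * (oq Q y).card := by
        have h8 : 3 * (C * (y : ℝ) ^ (1 / A)) * Real.log y ≤
            3 * (η₁ / 2 * (oq Q y).card) * Real.log y := by
          have h9 : η₁ / 2 * (κ * (y : ℝ) ^ ρ) ≤ η₁ / 2 * ((oq Q y).card * Real.log y) :=
            mul_le_mul_of_nonneg_left hk1' (by positivity)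
          have h10 := mul_le_mul_of_nonneg_left hk2 hC.le
          have h11 : C * (3 / C * (η₁ / 2 * κ) * (y : ℝ) ^ ρ) = 3 * (η₁ / 2 * (κ * (y : ℝ) ^ ρ)) := by
            field_simp
          rw [h11] at h10
          nlinarith
        have h12 := le_of_mul_le_mul_right h8 hly
        linarith
      have h5 := pattern_count Q d (fun i => (hdF i).1) s y
      have hlogd : ∑ i, 2 * Real.log |(d i : ℝ)| ≤ k * 2 * (y : ℝ) ^ (1 / A) := by
        calc ∑ i, 2 * Real.log |(d i : ℝ)| ≤ ∑ i : Fin k, 2 * (y : ℝ) ^ (1 / A) := by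
              refine sum_le_sum fun i _ => ?_
              refine mul_le_mul_of_nonneg_left (le_trans ?_ hsqy) (by norm_num)
              have h6 : (0 : ℝ) < |(d i : ℝ)| := by
                rw [abs_pos]
                exact_mod_cast fund_ne (hdF i).1
              refine Real.log_le_log h6 ?_
              have h8 := (hdF i).2
              rw [← Int.cast_abs]
              exact_mod_cast h8
          _ = _ := by
              rw [sum_const, card_univ, Fintype.card_fin, nsmul_eq_mul]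
              ring
      have hmain : 2 ^ k * (1 + ∑ i, 2 * Real.log |(d i : ℝ)|) + 1 ≤ C * (y : ℝ) ^ (1 / A) := by
        have h8 : 2 ^ k * (1 + ∑ i, 2 * Real.log |(d i : ℝ)|) ≤
            2 ^ k * ((y : ℝ) ^ (1 / A) + k * 2 * (y : ℝ) ^ (1 / A)) := by
          refine mul_le_mul_of_nonneg_left ?_ (by positivity)
          linarith
        have h9 : C * (y : ℝ) ^ (1 / A) =
            2 ^ k * ((y : ℝ) ^ (1 / A) + k * 2 * (y : ℝ) ^ (1 / A)) + (y : ℝ) ^ (1 / A) := by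
          rw [hCdef]; ring
        linarith
      have h6 : η₁ * ((oq Q y).card : ℝ) ≤ η * ((primesIn Q y).ncard : ℝ) :=
        mul_le_mul hη₁η eta_le (Nat.cast_nonneg _) hη.le
      rw [mem_biUnion]
      refine ⟨y, hyY, ?_⟩
      by_contra hcon
      have hsmall : ∀ S ∈ (univ : Finset (Finset (Fin k))).erase ∅,
          |(jS Q S d y : ℝ)| ≤ η₂ * (oq Q y).card := by
        intro S hS
        by_contra h10
        push Not at h10
        apply hcon
        rw [mem_biUnion]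
        refine ⟨S, hS, ?_⟩
        rw [hBd]
        show d ∈ (Fintype.piFinset (fun _ : Fin k => Icc (-(X : ℤ)) X)).filter
          (fun d : Fin k → ℤ => (∀ i, Fund (d i)) ∧ η₂ * (oq Q y).card ≤ (|jS Q S d y| : ℝ))
        rw [mem_filter]
        exact ⟨hTpi hd, fun i => (hdF i).1, h10.le⟩
      have hsum : ∑ S ∈ (univ : Finset (Finset (Fin k))).erase ∅, |(jS Q S d y : ℝ)| ≤
          η₁ / 2 * (oq Q y).card := by
        calc _ ≤ ∑ S ∈ (univ : Finset (Finset (Fin k))).erase ∅, η₂ * (oq Q y).card :=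
              sum_le_sum hsmall
          _ ≤ ∑ S : Finset (Fin k), η₂ * (oq Q y).card :=
              sum_le_sum_of_subset_of_nonneg (erase_subset _ _) (fun _ _ _ => by positivity)
          _ = 2 ^ k * (η₂ * (oq Q y).card) := by
              rw [sum_const, card_univ, Fintype.card_finset, Fintype.card_fin, nsmul_eq_mul]
              push_cast
              ring
          _ = _ := by
              rw [hη₂def]
              field_simp
      linarith
    have hc1 : (T.card : ℝ) ≤ Y.card * (2 ^ k * ((2 * X + 1 : ℝ) ^ (k - 1) * (4 * E))) := by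
      have e1 := (card_le_card key).trans card_biUnion_le
      have e2 : (T.card : ℝ) ≤ ∑ y ∈ Y, ((((univ : Finset (Finset (Fin k))).erase ∅).biUnion
        (fun S => Bd y S)).card : ℝ) := by exact_mod_cast e1
      refine e2.trans ?_
      rw [← nsmul_eq_mul]
      refine sum_le_card_nsmul _ _ _ fun y hy => ?_
      have e3 : ((((univ : Finset (Finset (Fin k))).erase ∅).biUnion
          (fun S => Bd y S)).card : ℝ) ≤
          ∑ S ∈ (univ : Finset (Finset (Fin k))).erase ∅, ((Bd y S).card : ℝ) := by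
        exact_mod_cast card_biUnion_le
      refine e3.trans ((sum_le_sum fun S hS => hBc y hy S hS).trans ?_)
      rw [sum_const, nsmul_eq_mul]
      refine mul_le_mul_of_nonneg_right ?_ (by positivity)
      have e4 : ((univ : Finset (Finset (Fin k))).erase ∅).card ≤ 2 ^ k := by
        refine (card_le_card (erase_subset _ _)).trans ?_
        rw [card_univ, Fintype.card_finset, Fintype.card_fin]
      exact_mod_cast e4
    have hYcard : (Y.card : ℝ) ≤ 2 * (X : ℝ) ^ (ε / 2) := by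
      have h1 : (Y.card : ℝ) ≤ (⌊(X : ℝ) ^ c⌋₊ : ℝ) + 1 := by
        have := card_filter_le (range (⌊(X : ℝ) ^ c⌋₊ + 1)) (fun y : ℕ =>
          κ * (y : ℝ) ^ ρ ≤ (oq Q y).card * Real.log y ∧ (Real.log X / A) ^ A ≤ (y : ℝ))
        rw [card_range] at this
        exact_mod_cast this
      have h2 : (⌊(X : ℝ) ^ c⌋₊ : ℝ) ≤ (X : ℝ) ^ c := Nat.floor_le (by positivity)
      have h3 : (X : ℝ) ^ c ≤ (X : ℝ) ^ (ε / 2) :=
        Real.rpow_le_rpow_of_exponent_le hX1 (by rw [hcdef]; exact min_le_right _ _)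
      have h4 : (1 : ℝ) ≤ (X : ℝ) ^ (ε / 2) := Real.one_le_rpow hX1 (by positivity)
      linarith
    have hpow : (2 * X + 1 : ℝ) ^ (k - 1) ≤ 3 ^ k * (X : ℝ) ^ ((k : ℝ) - 1) := by
      have h1 : (2 * X + 1 : ℝ) ^ (k - 1) ≤ (3 * X : ℝ) ^ (k - 1) :=
        pow_le_pow_left₀ (by positivity) (by linarith) _
      have h2 : (3 : ℝ) ^ (k - 1) ≤ 3 ^ k := pow_le_pow_right₀ (by norm_num) (by omega)
      have h3 : (X : ℝ) ^ (k - 1) = (X : ℝ) ^ ((k : ℝ) - 1) := by
        rw [← Real.rpow_natCast, Nat.cast_sub hk, Nat.cast_one]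
      rw [mul_pow, h3] at h1
      refine h1.trans ?_
      exact mul_le_mul_of_nonneg_right h2 (by positivity)
    have hprod : (X : ℝ) ^ (ε / 2) * ((X : ℝ) ^ ((k : ℝ) - 1) * (X : ℝ) ^ (1 - ρ + 1 / A + ε / 2)) =
        (X : ℝ) ^ (k - ρ + 1 / A + ε) := by
      rw [← Real.rpow_add hXp, ← Real.rpow_add hXp]
      congr 1
      ring
    have hfin : (T.card : ℝ) ≤ 2 * G * (X : ℝ) ^ (k - ρ + 1 / A + ε) := by
      calc (T.card : ℝ) ≤ Y.card * (2 ^ k * ((2 * X + 1 : ℝ) ^ (k - 1) * (4 * E))) := hc1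
        _ ≤ (2 * (X : ℝ) ^ (ε / 2)) * (2 ^ k * ((2 * X + 1 : ℝ) ^ (k - 1) * (4 * E))) :=
            mul_le_mul_of_nonneg_right hYcard (by positivity)
        _ ≤ (2 * (X : ℝ) ^ (ε / 2)) * (2 ^ k * ((3 ^ k * (X : ℝ) ^ ((k : ℝ) - 1)) * (4 * E))) := by
            refine mul_le_mul_of_nonneg_left ?_ (by positivity)
            refine mul_le_mul_of_nonneg_left ?_ (by positivity)
            exact mul_le_mul_of_nonneg_right hpow (by positivity)
        _ = 2 * G * ((X : ℝ) ^ (ε / 2) * ((X : ℝ) ^ ((k : ℝ) - 1) *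
              (X : ℝ) ^ (1 - ρ + 1 / A + ε / 2))) := by
            rw [hG, hE]; ring
        _ = _ := by rw [hprod]
    have h3 : (0 : ℝ) ≤ (2 * X₀ + 1) ^ k := by positivity
    nlinarith

end Pool.Agent.U61.JS
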