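import Pool.Agent.U61.JS.C

/-!
# Joint splitting in several quadratic fields: all twists (helper61)
-/

set_option autoImplicit false

namespace Pool.Agent.U61.JS

open Finset Filter Pool.Agent.Y549.SP

theorem twist (A ρ η ε : ℝ) (Q : Set ℕ) (hρ : 0 < ρ) (hρ1 : ρ ≤ 1)
    (hAρ : 1 < A * ρ) (hη : 0 < η) (hε : 0 < ε) (hQ : Thick Q ρ) :
    ∃ c K : ℝ, 0 < c ∧ 0 < K ∧ ∀ (D : ℤ) (X : ℕ), 1 ≤ X → ∀ T : Finset ℤ,
      (∀ d ∈ T, (Fund d ∧ |d| ≤ X) ∧ ∃ y : ℕ,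
        Real.log X ^ A ≤ y ∧ (y : ℝ) ≤ (X : ℝ) ^ c ∧
        η * (primesIn Q y).ncard < |(js Q (D * d) y : ℝ)|) →
      (T.card : ℝ) ≤ K * (X : ℝ) ^ (1 - ρ + 1 / A + ε) := by
  classical
  obtain ⟨κ₀, hκ₀, y₀, hy₀⟩ := hQ
  have hA1 : 1 < A := by nlinarith
  have hA0 : (0 : ℝ) < A := by linarith
  obtain ⟨κ, hκdef⟩ : ∃ κ : ℝ, κ = min κ₀ 1 / 4 := ⟨_, rfl⟩
  obtain ⟨η₁, hη₁def⟩ : ∃ η₁ : ℝ, η₁ = min η 1 := ⟨_, rfl⟩
  have hκ : 0 < κ := by
    have := lt_min hκ₀ one_pos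
    rw [hκdef]
    positivity
  have hκ1 : κ ≤ 1 := by
    have := min_le_right κ₀ (1 : ℝ)
    rw [hκdef]; linarith
  have hη₁ : 0 < η₁ := by rw [hη₁def]; exact lt_min hη one_pos
  have hη₁1 : η₁ ≤ 1 := by rw [hη₁def]; exact min_le_right _ _
  have hη₁η : η₁ ≤ η := by rw [hη₁def]; exact min_le_left _ _
  obtain ⟨c₀, K₀, hc₀, hK₀, hbad⟩ := bad3 A ρ κ η₁ (ε / 2) hρ hρ1 hAρ hκ hκ1 hη₁ hη₁1 (by positivity)
  obtain ⟨y₁, hy₁⟩ := eventually_atTop.1 (CNT2.step1 hρ hκ₀ hy₀)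
  have hlogt : Tendsto (fun t : ℕ => Real.log (t : ℝ)) atTop atTop :=
    Real.tendsto_log_atTop.comp tendsto_natCast_atTop_atTop
  obtain ⟨X₀, hX₀⟩ := eventually_atTop.1
    (hlogt.eventually_ge_atTop (max 1 ((max y₁ 2 : ℕ) : ℝ)))
  obtain ⟨c, hcdef⟩ : ∃ c : ℝ, c = min c₀ (ε / 2) := ⟨_, rfl⟩
  have hc : 0 < c := by rw [hcdef]; exact lt_min hc₀ (by positivity)
  refine ⟨c, (2 * X₀ + 1) + 8 * K₀, hc, by positivity, ?_⟩
  intro D X hX T hT
  have hX1 : (1 : ℝ) ≤ X := by exact_mod_cast hX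
  have hXp : (0 : ℝ) < X := by linarith
  have hiA : 0 < 1 / A := by positivity
  have hbig : (1 : ℝ) ≤ (X : ℝ) ^ (1 - ρ + 1 / A + ε) := Real.one_le_rpow hX1 (by linarith)
  have hTI : T ⊆ Icc (-(X : ℤ)) X := by
    intro d hd
    have := (hT d hd).1.2
    rw [abs_le] at this
    rw [mem_Icc]
    exact this
  have hIc : ((Icc (-(X : ℤ)) X).card : ℝ) = 2 * X + 1 := by
    rw [Int.card_Icc]
    have : ((X : ℤ) + 1 - -(X : ℤ)).toNat = 2 * X + 1 := by omega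
    rw [this]
    push_cast
    ring
  rcases lt_or_ge X X₀ with hlt | hge
  · have h1 : (T.card : ℝ) ≤ 2 * X + 1 := by
      rw [← hIc]
      exact_mod_cast card_le_card hTI
    have h2 : (X : ℝ) ≤ X₀ := by exact_mod_cast hlt.le
    nlinarith
  · have hlogX := hX₀ X hge
    have hlog1 : 1 ≤ Real.log (X : ℝ) := (le_max_left _ _).trans hlogX
    have hlogM : ((max y₁ 2 : ℕ) : ℝ) ≤ Real.log (X : ℝ) := (le_max_right _ _).trans hlogX
    set Bd : ℕ → Finset ℤ := fun y => (Icc (-(X : ℤ)) X).filter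
      (fun d => Fund d ∧ η₁ * (oq Q y).card ≤ (|js Q (D * d) y| : ℝ)) with hBd
    set Y : Finset ℕ := (range (⌊(X : ℝ) ^ c⌋₊ + 1)).filter (fun y =>
      κ * (y : ℝ) ^ ρ ≤ (oq Q y).card * Real.log y ∧ (Real.log X / A) ^ A ≤ (y : ℝ)) with hYdef
    have hYc : ∀ y ∈ Y, (y : ℝ) ≤ (X : ℝ) ^ c := by
      intro y hy
      rw [hYdef, mem_filter, mem_range] at hy
      have h1 : y ≤ ⌊(X : ℝ) ^ c⌋₊ := by omega
      exact (Nat.cast_le.2 h1).trans (Nat.floor_le (by positivity))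
    obtain ⟨E, hE⟩ : ∃ E : ℝ, E = K₀ * (X : ℝ) ^ (1 - ρ + 1 / A + ε / 2) := ⟨_, rfl⟩
    have hE0 : 0 < E := by rw [hE]; positivity
    have hBc : ∀ y ∈ Y, ((Bd y).card : ℝ) ≤ 4 * E := by
      intro y hy
      have h2 := hYc y hy
      rw [hYdef, mem_filter] at hy
      refine one Q X y _ E (fun D' => ?_) D
      rw [hE]
      refine hbad D' Q X y hX hy.2.2 (h2.trans ?_) hy.2.1
      exact Real.rpow_le_rpow_of_exponent_le hX1 (by rw [hcdef]; exact min_le_left _ _)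
    have key : T ⊆ Y.biUnion Bd := by
      intro d hd
      obtain ⟨hdF, y, hyA, hyc, hyb⟩ := hT d hd
      have hlogy : Real.log (X : ℝ) ≤ (y : ℝ) := by
        refine le_trans ?_ hyA
        calc Real.log (X : ℝ) = Real.log (X : ℝ) ^ (1 : ℝ) := (Real.rpow_one _).symm
          _ ≤ _ := Real.rpow_le_rpow_of_exponent_le hlog1 hA1.le
      have hMy : max y₁ 2 ≤ y := by
        have h3 : ((max y₁ 2 : ℕ) : ℝ) ≤ (y : ℝ) := hlogM.trans hlogy
        exact_mod_cast h3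
      have hk1' := hy₁ y ((le_max_left _ _).trans hMy)
      rw [← hκdef] at hk1'
      have hXy : (Real.log X / A) ^ A ≤ (y : ℝ) := by
        refine le_trans (Real.rpow_le_rpow ?_ ?_ hA0.le) hyA
        · exact div_nonneg (Real.log_nonneg hX1) hA0.le
        · exact div_le_self (by linarith) hA1.le
      have hyY : y ∈ Y := by
        rw [hYdef, mem_filter, mem_range]
        refine ⟨?_, hk1', hXy⟩
        have := Nat.le_floor hyc
        omega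
      have h6 : η₁ * ((oq Q y).card : ℝ) ≤ η * ((primesIn Q y).ncard : ℝ) :=
        mul_le_mul hη₁η eta_le (Nat.cast_nonneg _) hη.le
      rw [mem_biUnion]
      refine ⟨y, hyY, ?_⟩
      rw [hBd]
      show d ∈ (Icc (-(X : ℤ)) X).filter
        (fun d => Fund d ∧ η₁ * (oq Q y).card ≤ (|js Q (D * d) y| : ℝ))
      rw [mem_filter]
      exact ⟨hTI hd, hdF.1, by linarith⟩
    have hc1 : (T.card : ℝ) ≤ Y.card * (4 * E) := by
      have e1 := (card_le_card key).trans card_biUnion_le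
      have e2 : (T.card : ℝ) ≤ ∑ y ∈ Y, ((Bd y).card : ℝ) := by exact_mod_cast e1
      refine e2.trans ?_
      rw [← nsmul_eq_mul]
      exact sum_le_card_nsmul _ _ _ hBc
    have hYcard : (Y.card : ℝ) ≤ 2 * (X : ℝ) ^ (ε / 2) := by
      have h1 : (Y.card : ℝ) ≤ (⌊(X : ℝ) ^ c⌋₊ : ℝ) + 1 := by
        have := card_filter_le (range (⌊(X : ℝ) ^ c⌋₊ + 1)) (fun y : ℕ =>
          κ * (y : ℝ) ^ ρ ≤ (oq Q y).card * Real.log y ∧ (Real.log X / A) ^ A ≤ (y : ℝ))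
        rw [card_range] at this
        exact_mod_cast this
      have h2 : (⌊(X : ℝ) ^ c⌋₊ : ℝ) ≤ (X : ℝ) ^ c := Nat.floor_le (by positivity)
      have h3 : (X : ℝ) ^ c ≤ (X : ℝ) ^ (ε / 2) :=
        Real.rpow_le_rpow_of_exponent_le hX1 (by rw [hcdef]; exact min_le_right _ _)
      have h4 : (1 : ℝ) ≤ (X : ℝ) ^ (ε / 2) := Real.one_le_rpow hX1 (by positivity)
      linarith
    have hprod : (X : ℝ) ^ (ε / 2) * (X : ℝ) ^ (1 - ρ + 1 / A + ε / 2) =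
        (X : ℝ) ^ (1 - ρ + 1 / A + ε) := by
      rw [← Real.rpow_add hXp]
      congr 1
      ring
    have hfin : (T.card : ℝ) ≤ 8 * K₀ * (X : ℝ) ^ (1 - ρ + 1 / A + ε) := by
      calc (T.card : ℝ) ≤ Y.card * (4 * E) := hc1
        _ ≤ (2 * (X : ℝ) ^ (ε / 2)) * (4 * E) := mul_le_mul_of_nonneg_right hYcard (by positivity)
        _ = 8 * K₀ * ((X : ℝ) ^ (ε / 2) * (X : ℝ) ^ (1 - ρ + 1 / A + ε / 2)) := by
            rw [hE]; ring
        _ = _ := by rw [hprod]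
    have h3 : (0 : ℝ) ≤ (2 * X₀ + 1) := by positivity
    nlinarith

end Pool.Agent.U61.JS
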