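import Pool.Agent.U61.JS.C

/-!
# Joint splitting in several quadratic fields: the range of the question (helper61)
-/

set_option autoImplicit false

namespace Pool.Agent.U61.JS

open Finset Filter Pool.Agent.Y549.SP

/-- the threshold of the question -/
noncomputable def thr (d : ℤ) : ℝ :=
  Real.log |(d : ℝ)| ^ 2 * Real.log (Real.log |(d : ℝ)|) ^ 2

/-- the number of the primes in `Q` below all the thresholds, with the pattern `s` -/
noncomputable def NP {k : ℕ} (Q : Set ℕ) (d : Fin k → ℤ) (s : Fin k → Bool) : ℕ :=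
  Set.ncard {p : ℕ | p.Prime ∧ p ∈ Q ∧ (∀ i, (p : ℝ) < thr (d i)) ∧ Pt d s p}

/-- the number of the primes in `Q` below all the thresholds -/
noncomputable def MP {k : ℕ} (Q : Set ℕ) (d : Fin k → ℤ) : ℕ :=
  Set.ncard {p : ℕ | p.Prime ∧ p ∈ Q ∧ ∀ i, (p : ℝ) < thr (d i)}

/-- the range of the question, for tuples of discriminants of comparable logarithms -/
lemma range_ex (k : ℕ) (hk : 1 ≤ k) (c : ℝ) (hc : 0 < c) (M : ℝ) (hM : 64 ≤ M) :
    ∃ X₀ : ℕ, ∀ X : ℕ, X₀ ≤ X → ∀ d : Fin k → ℤ,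
      (∀ i, (X : ℝ) ^ (1 / 2 : ℝ) ≤ |(d i : ℝ)| ∧ |(d i : ℝ)| ≤ X) →
      ∃ y : ℕ, Real.log X ^ (2 : ℝ) ≤ y ∧ (y : ℝ) ≤ (X : ℝ) ^ c ∧
        (∀ p : ℕ, p ≤ y ↔ ∀ i, (p : ℝ) < thr (d i)) ∧ 16 ≤ y ∧
        Real.log X ^ 2 * (4 * M) * Real.log y ≤ y := by
  have hev1 : ∀ᶠ L : ℝ in atTop, ‖L ^ 4‖ ≤ 1 * ‖Real.exp (c * L)‖ :=
    (isLittleO_pow_exp_pos_mul_atTop (k := 4) hc).def one_pos
  have hev2 : ∀ᶠ L : ℝ in atTop, 2 ^ 9 * M ≤ Real.log L :=
    Real.tendsto_log_atTop.eventually (eventually_ge_atTop _)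
  have hlogt : Tendsto (fun t : ℕ => Real.log (t : ℝ)) atTop atTop :=
    Real.tendsto_log_atTop.comp tendsto_natCast_atTop_atTop
  obtain ⟨X₀, hX₀⟩ := eventually_atTop.mp
    (hlogt.eventually (hev1.and (hev2.and (eventually_ge_atTop 2))))
  refine ⟨X₀ + 1, fun X hX d hd => ?_⟩
  obtain ⟨e1, e2, e3⟩ := hX₀ X (by omega)
  have hX1 : (1 : ℝ) ≤ X := by exact_mod_cast (by omega : 1 ≤ X)
  have hXp : (0 : ℝ) < X := by linarith
  obtain ⟨L, hL⟩ : ∃ L : ℝ, L = Real.log X := ⟨_, rfl⟩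
  obtain ⟨l, hl⟩ : ∃ l : ℝ, l = Real.log L := ⟨_, rfl⟩
  rw [← hL] at e1 e2 e3
  rw [← hl] at e2
  have hL0 : 0 < L := by linarith
  have hlbig : 2 ^ 15 ≤ l := by nlinarith
  have hlL : l ≤ L := by
    rw [hl]
    have := Real.log_le_sub_one_of_pos hL0
    linarith
  -- each threshold
  have hth : ∀ i, L ^ 2 * l ^ 2 / 16 ≤ thr (d i) ∧ thr (d i) ≤ L ^ 2 * l ^ 2 := by
    intro i
    obtain ⟨h1, h2⟩ := hd i
    have hdp : 0 < |(d i : ℝ)| := lt_of_lt_of_le (by positivity) h1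
    have g1 : L / 2 ≤ Real.log |(d i : ℝ)| := by
      have := Real.log_le_log (by positivity) h1
      rw [Real.log_rpow hXp] at this
      rw [hL]; linarith
    have g2 : Real.log |(d i : ℝ)| ≤ L := by
      rw [hL]; exact Real.log_le_log hdp h2
    obtain ⟨u, hu⟩ : ∃ u : ℝ, u = Real.log |(d i : ℝ)| := ⟨_, rfl⟩
    rw [← hu] at g1 g2
    have hu0 : 0 < u := by linarith
    have g3 : l / 2 ≤ Real.log u := by
      have h3 : Real.log (L / 2) ≤ Real.log u := Real.log_le_log (by positivity) g1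
      rw [Real.log_div hL0.ne' (by norm_num), ← hl] at h3
      have := Real.log_two_lt_d9
      linarith
    have g4 : Real.log u ≤ l := by rw [hl]; exact Real.log_le_log hu0 g2
    unfold thr
    rw [← hu]
    have hl2 : 0 ≤ l / 2 := by linarith
    constructor
    · calc L ^ 2 * l ^ 2 / 16 = (L / 2) ^ 2 * (l / 2) ^ 2 := by ring
        _ ≤ u ^ 2 * Real.log u ^ 2 :=
          mul_le_mul (pow_le_pow_left₀ (by positivity) g1 2) (pow_le_pow_left₀ hl2 g3 2)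
            (by positivity) (by positivity)
    · exact mul_le_mul (pow_le_pow_left₀ hu0.le g2 2) (pow_le_pow_left₀ (by linarith) g4 2)
        (by positivity) (by positivity)
  -- the smallest threshold
  obtain ⟨i₁, -, hi₁⟩ := exists_min_image (univ : Finset (Fin k)) (fun i => thr (d i))
    ⟨⟨0, hk⟩, mem_univ _⟩
  obtain ⟨t1, t2⟩ := hth i₁
  obtain ⟨T, hT⟩ : ∃ T : ℝ, T = thr (d i₁) := ⟨_, rfl⟩
  rw [← hT] at t1 t2
  have hL2 : 4 ≤ L ^ 2 := by nlinarith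
  have hLl : 0 < L ^ 2 * l ^ 2 := by positivity
  have hl2 : (2 : ℝ) ^ 30 ≤ l ^ 2 := by nlinarith
  have hLl2 : 4 * 2 ^ 30 ≤ L ^ 2 * l ^ 2 := by nlinarith
  have hT0 : 0 < T := by linarith
  obtain ⟨y, hy⟩ : ∃ y : ℕ, y = ⌈T⌉₊ - 1 := ⟨_, rfl⟩
  have hc1 : 1 ≤ ⌈T⌉₊ := Nat.one_le_ceil_iff.mpr hT0
  have hy1 : ∀ p : ℕ, p ≤ y ↔ (p : ℝ) < T := by
    intro p
    rw [← Nat.lt_ceil, hy]
    omega
  have hylt : (y : ℝ) < T := (hy1 y).mp le_rfl
  have hyge : T ≤ y + 1 := by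
    have h1 : ¬ (y + 1 ≤ y) := by omega
    rw [hy1] at h1
    push_cast at h1
    exact not_lt.mp h1
  have hy32 : L ^ 2 * l ^ 2 / 32 ≤ y := by linarith
  have hypos : (0 : ℝ) < y := by
    have : 0 < L ^ 2 * l ^ 2 / 32 := by positivity
    linarith
  refine ⟨y, ?_, ?_, ?_, ?_, ?_⟩
  · rw [← hL]
    have e4 : L ^ (2 : ℝ) = L ^ 2 := by
      rw [← Real.rpow_natCast]; norm_num
    rw [e4]
    nlinarith
  · have h1 : (X : ℝ) ^ c = Real.exp (c * L) := by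
      rw [Real.rpow_def_of_pos hXp, ← hL, mul_comm]
    rw [h1]
    rw [one_mul, Real.norm_of_nonneg (by positivity), Real.norm_of_nonneg (Real.exp_pos _).le] at e1
    have h2 : L ^ 2 * l ^ 2 ≤ L ^ 4 := by
      have h3 : l ^ 2 ≤ L ^ 2 := pow_le_pow_left₀ (by linarith) hlL 2
      nlinarith [sq_nonneg L]
    linarith
  · intro p
    rw [hy1]
    constructor
    · intro h i
      exact lt_of_lt_of_le h (by rw [hT]; exact hi₁ i (mem_univ _))
    · intro h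
      rw [hT]
      exact h i₁
  · have : (16 : ℝ) ≤ y := by linarith
    exact_mod_cast this
  · -- `log y ≤ 4 l`
    have h1 : Real.log y ≤ 4 * l := by
      have h2 : (y : ℝ) ≤ L ^ 2 * l ^ 2 := by linarith
      have h3 := Real.log_le_log hypos h2
      have hl0 : 0 < l := by linarith
      rw [Real.log_mul (by positivity) (by positivity), Real.log_pow, Real.log_pow, ← hl] at h3
      have h4 := Real.log_le_sub_one_of_pos hl0
      push_cast at h3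
      linarith
    rw [← hL]
    have h5 : L ^ 2 * (4 * M) * Real.log y ≤ L ^ 2 * (4 * M) * (4 * l) :=
      mul_le_mul_of_nonneg_left h1 (by positivity)
    have h6 : L ^ 2 * (4 * M) * (4 * l) ≤ L ^ 2 * l ^ 2 / 32 := by
      have h7 : 2 ^ 9 * M * l ≤ l * l := mul_le_mul_of_nonneg_right e2 (by linarith)
      nlinarith [sq_nonneg L]
    linarith

/-- the tuples with a small entry -/
lemma small_tuples (k : ℕ) (hk : 1 ≤ k) (X : ℕ) (hX : 1 ≤ X) (F : Finset (Fin k → ℤ))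
    (hF : ∀ d ∈ F, (∀ i, |d i| ≤ X) ∧ ∃ i, |(d i : ℝ)| < (X : ℝ) ^ (1 / 2 : ℝ)) :
    (F.card : ℝ) ≤ k * 3 ^ k * (X : ℝ) ^ ((k : ℝ) - 1 / 2) := by
  classical
  have hX1 : (1 : ℝ) ≤ X := by exact_mod_cast hX
  have hXp : (0 : ℝ) < X := by linarith
  obtain ⟨n, rfl⟩ : ∃ n, k = n + 1 := ⟨k - 1, by omega⟩
  set R : ℕ := ⌊(X : ℝ) ^ (1 / 2 : ℝ)⌋₊ with hR
  have hsub : F ⊆ (univ : Finset (Fin (n + 1))).biUnion (fun i =>
      F.filter (fun d => |(d i : ℝ)| < (X : ℝ) ^ (1 / 2 : ℝ))) := by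
    intro d hd
    obtain ⟨i, hi⟩ := (hF d hd).2
    rw [mem_biUnion]
    exact ⟨i, mem_univ _, mem_filter.2 ⟨hd, hi⟩⟩
  have hIc : ((Icc (-(X : ℤ)) X).card : ℝ) = 2 * X + 1 := by
    rw [Int.card_Icc]
    have : ((X : ℤ) + 1 - -(X : ℤ)).toNat = 2 * X + 1 := by omega
    rw [this]
    push_cast
    ring
  have heach : ∀ i ∈ (univ : Finset (Fin (n + 1))),
      ((F.filter (fun d => |(d i : ℝ)| < (X : ℝ) ^ (1 / 2 : ℝ))).card : ℝ) ≤
        (2 * X + 1) ^ n * (3 * (X : ℝ) ^ (1 / 2 : ℝ)) := by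
    intro i _
    rw [← hIc]
    refine fiber_count n i _ _ _ ?_ ?_
    · intro d hd j
      rw [mem_filter] at hd
      have := (hF d hd.1).1 j
      rw [abs_le] at this
      rw [mem_Icc]
      exact this
    · intro e
      have h1 : ((Icc (-(X : ℤ)) X).filter (fun z => (i.insertNth z e : Fin (n + 1) → ℤ) ∈
          F.filter (fun d => |(d i : ℝ)| < (X : ℝ) ^ (1 / 2 : ℝ)))) ⊆ Icc (-(R : ℤ)) R := by
        intro z hz
        rw [mem_filter, mem_filter, Fin.insertNth_apply_same] at hz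
        have h2 := hz.2.2
        have h3 : z.natAbs ≤ R := by
          rw [hR]
          apply Nat.le_floor
          rw [Nat.cast_natAbs, Int.cast_abs]
          exact h2.le
        rw [mem_Icc]
        omega
      have h2 := card_le_card h1
      rw [Int.card_Icc] at h2
      have h3 : ((R : ℤ) + 1 - -(R : ℤ)).toNat = 2 * R + 1 := by omega
      rw [h3] at h2
      have h4 : (R : ℝ) ≤ (X : ℝ) ^ (1 / 2 : ℝ) := Nat.floor_le (by positivity)
      have h5 : (1 : ℝ) ≤ (X : ℝ) ^ (1 / 2 : ℝ) := Real.one_le_rpow hX1 (by norm_num)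
      have h6 : ((((Icc (-(X : ℤ)) X).filter (fun z => (i.insertNth z e : Fin (n + 1) → ℤ) ∈
          F.filter (fun d => |(d i : ℝ)| < (X : ℝ) ^ (1 / 2 : ℝ)))).card : ℕ) : ℝ) ≤ 2 * R + 1 := by
        exact_mod_cast h2
      linarith
  have h1 := (card_le_card hsub).trans card_biUnion_le
  have h2 : (F.card : ℝ) ≤ ∑ i : Fin (n + 1),
      ((F.filter (fun d => |(d i : ℝ)| < (X : ℝ) ^ (1 / 2 : ℝ))).card : ℝ) := by exact_mod_cast h1
  have h3 := h2.trans (sum_le_card_nsmul _ _ _ heach)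
  rw [card_univ, Fintype.card_fin, nsmul_eq_mul] at h3
  refine h3.trans ?_
  have h4 : (2 * (X : ℝ) + 1) ^ n ≤ (3 * X) ^ n := pow_le_pow_left₀ (by positivity) (by linarith) _
  have h5 : (X : ℝ) ^ n * (X : ℝ) ^ (1 / 2 : ℝ) = (X : ℝ) ^ (((n + 1 : ℕ) : ℝ) - 1 / 2) := by
    rw [← Real.rpow_natCast, ← Real.rpow_add hXp]
    congr 1
    push_cast
    ring
  rw [mul_assoc ((n + 1 : ℕ) : ℝ)]
  refine mul_le_mul_of_nonneg_left ?_ (Nat.cast_nonneg _)
  rw [← h5, pow_succ]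
  calc (2 * (X : ℝ) + 1) ^ n * (3 * (X : ℝ) ^ (1 / 2 : ℝ)) ≤
      (3 * X) ^ n * (3 * (X : ℝ) ^ (1 / 2 : ℝ)) := mul_le_mul_of_nonneg_right h4 (by positivity)
    _ = _ := by rw [mul_pow]; ring

/-- all patterns are equally frequent below the thresholds of the question, for almost all tuples -/
theorem joint_thr (k : ℕ) (hk : 1 ≤ k) (ρ η ε : ℝ) (Q : Set ℕ) (hρ : 1 / 2 < ρ) (hρ1 : ρ ≤ 1)
    (hη : 0 < η) (hε : 0 < ε) (hQ : Thick Q ρ) :
    ∃ K : ℝ, 0 < K ∧ ∀ X : ℕ, 1 ≤ X → ∀ T : Finset (Fin k → ℤ),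
      (∀ d ∈ T, (∀ i, Fund (d i) ∧ |d i| ≤ X) ∧ ∃ s : Fin k → Bool,
        η * MP Q d < |2 ^ k * (NP Q d s : ℝ) - MP Q d|) →
      (T.card : ℝ) ≤ K * (X : ℝ) ^ (k + 1 / 2 - ρ + ε) := by
  classical
  obtain ⟨c, K, hc, hK, hJ⟩ := joint k hk 2 ρ η ε Q (by linarith) hρ1 (by linarith) hη hε hQ
  obtain ⟨X₀, hX₀⟩ := range_ex k hk c hc 64 le_rfl
  refine ⟨K + k * 3 ^ k + (2 * X₀ + 1) ^ k, by positivity, fun X hX T hT => ?_⟩
  have hX1 : (1 : ℝ) ≤ X := by exact_mod_cast hX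
  have hXp : (0 : ℝ) < X := by linarith
  have hk1 : (1 : ℝ) ≤ k := by exact_mod_cast hk
  obtain ⟨E, hE⟩ : ∃ E : ℝ, E = (X : ℝ) ^ (k + 1 / 2 - ρ + ε) := ⟨_, rfl⟩
  have hbig : (1 : ℝ) ≤ E := by rw [hE]; exact Real.one_le_rpow hX1 (by linarith)
  rw [← hE]
  rcases lt_or_ge X X₀ with hlt | hge
  · have hTpi : T ⊆ Fintype.piFinset (fun _ : Fin k => Icc (-(X : ℤ)) X) := by
      intro d hd
      rw [Fintype.mem_piFinset]
      intro i
      have := ((hT d hd).1 i).2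
      rw [abs_le] at this
      rw [mem_Icc]
      exact this
    have hIc : ((Icc (-(X : ℤ)) X).card : ℝ) = 2 * X + 1 := by
      rw [Int.card_Icc]
      have : ((X : ℤ) + 1 - -(X : ℤ)).toNat = 2 * X + 1 := by omega
      rw [this]
      push_cast
      ring
    have h1 : (T.card : ℝ) ≤ (2 * X + 1) ^ k := by
      have h2 := card_le_card hTpi
      rw [Fintype.card_piFinset_const] at h2
      have h3 : (T.card : ℝ) ≤ ((Icc (-(X : ℤ)) X).card : ℝ) ^ k := by exact_mod_cast h2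
      rwa [hIc] at h3
    have h2 : ((2 : ℝ) * X + 1) ^ k ≤ (2 * X₀ + 1) ^ k := by
      refine pow_le_pow_left₀ (by positivity) ?_ k
      have : (X : ℝ) ≤ X₀ := by exact_mod_cast hlt.le
      linarith
    have h3 : (0 : ℝ) ≤ (2 * X₀ + 1) ^ k := by positivity
    have h4 : (0 : ℝ) ≤ k * 3 ^ k := by positivity
    nlinarith
  · have hs := small_tuples k hk X hX (T.filter (fun d => ∃ i, |(d i : ℝ)| < (X : ℝ) ^ (1 / 2 : ℝ)))
      (fun d hd => ⟨fun i => ((hT d (mem_filter.1 hd).1).1 i).2, (mem_filter.1 hd).2⟩)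
    have hl := hJ X hX (T.filter (fun d => ¬ ∃ i, |(d i : ℝ)| < (X : ℝ) ^ (1 / 2 : ℝ))) (by
      intro d hd
      rw [mem_filter] at hd
      obtain ⟨hdT, hbig'⟩ := hd
      push Not at hbig'
      obtain ⟨h1, s, hs⟩ := hT d hdT
      refine ⟨h1, ?_⟩
      obtain ⟨y, g1, g2, g3, -, -⟩ := hX₀ X hge d (fun i => ⟨hbig' i, by
        have := (h1 i).2
        rw [← Int.cast_abs]
        exact_mod_cast this⟩)
      refine ⟨y, s, g1, g2, ?_⟩
      have s1 : patIn Q d s y = {p : ℕ | p.Prime ∧ p ∈ Q ∧ (∀ i, (p : ℝ) < thr (d i)) ∧ Pt d s p} := by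
        ext p
        constructor
        · rintro ⟨a1, a2, a3, a4⟩
          exact ⟨a1, a3, (g3 p).mp a2, a4⟩
        · rintro ⟨a1, a2, a3, a4⟩
          exact ⟨a1, (g3 p).mpr a3, a2, a4⟩
      have s2 : primesIn Q y = {p : ℕ | p.Prime ∧ p ∈ Q ∧ ∀ i, (p : ℝ) < thr (d i)} := by
        ext p
        constructor
        · rintro ⟨a1, a2, a3⟩
          exact ⟨a1, a3, (g3 p).mp a2⟩
        · rintro ⟨a1, a2, a3⟩
          exact ⟨a1, (g3 p).mpr a3, a2⟩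
      rw [s1, s2]
      exact hs)
    have h1 : (T.card : ℝ) = (T.filter (fun d => ∃ i, |(d i : ℝ)| < (X : ℝ) ^ (1 / 2 : ℝ))).card +
        (T.filter (fun d => ¬ ∃ i, |(d i : ℝ)| < (X : ℝ) ^ (1 / 2 : ℝ))).card := by
      exact_mod_cast (card_filter_add_card_filter_not (s := T) _).symm
    have e1 : (k : ℝ) - ρ + 1 / 2 + ε = k + 1 / 2 - ρ + ε := by ring
    rw [e1, ← hE] at hl
    have h2 : (X : ℝ) ^ ((k : ℝ) - 1 / 2) ≤ E := by
      rw [hE]
      exact Real.rpow_le_rpow_of_exponent_le hX1 (by linarith)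
    have h3 : (k : ℝ) * 3 ^ k * (X : ℝ) ^ ((k : ℝ) - 1 / 2) ≤ k * 3 ^ k * E :=
      mul_le_mul_of_nonneg_left h2 (by positivity)
    have h4 : (0 : ℝ) ≤ (2 * X₀ + 1) ^ k := by positivity
    have h5 : (0 : ℝ) ≤ (2 * X₀ + 1) ^ k * E := by positivity
    rw [h1]
    nlinarith

end Pool.Agent.U61.JS
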