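import Pool.Agent.U61.JS.E
import Pool.Agent.U61.JS.D
import Pool.Agent.Y549.SP.Fin2

/-!
# Joint splitting in several quadratic fields: many common split primes (helper61)
-/

set_option autoImplicit false

namespace Pool.Agent.U61.JS

open Finset Filter Pool.Agent.Y549.SP

/-- Chebyshev's lower bound -/
lemma primes_lower (y : ℕ) (hy : 16 ≤ y) :
    1 / 4 * (y : ℝ) ≤ (primesIn Set.univ y).ncard * Real.log y := by
  have h : primesIn Set.univ y = (((range (y + 1)).filter Nat.Prime : Finset ℕ) : Set ℕ) := by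
    ext p
    simp [primesIn, Nat.lt_succ_iff, and_comm]
  rw [h, Set.ncard_coe_finset]
  have h1 : (y : ℝ) * Real.log 2 - Real.log (y + 1) ≤ Nat.primeCounting y * Real.log y :=
    (Chebyshev.psi_ge y).trans (Chebyshev.psi_le_primeCounting_mul_log y)
  rw [Nat.primeCounting, Nat.primeCounting', Nat.count_eq_card_filter_range] at h1
  have hy' : (16 : ℝ) ≤ y := by exact_mod_cast hy
  have h2 : Real.log ((y : ℝ) + 1) ≤ (y : ℝ) / 4 := by
    have h3 : Real.log ((y : ℝ) + 1) = Real.log (((y : ℝ) + 1) / 16) + Real.log 16 := by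
      rw [← Real.log_mul (by positivity) (by norm_num)]; congr 1; ring
    have h4 : Real.log (((y : ℝ) + 1) / 16) ≤ ((y : ℝ) + 1) / 16 - 1 :=
      Real.log_le_sub_one_of_pos (by positivity)
    have h5 : Real.log (16 : ℝ) = 4 * Real.log 2 := by
      rw [show (16 : ℝ) = 2 ^ 4 by norm_num, Real.log_pow]; norm_num
    have h6 := Real.log_two_lt_d9
    rw [h3, h5]
    linarith
  have h7 := Real.log_two_gt_d9
  nlinarith

/-- from finite sets to `ncard` -/
lemma ncard_le (k X : ℕ) (R : (Fin k → ℤ) → Prop) (B : ℝ)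
    (h : ∀ T : Finset (Fin k → ℤ), (∀ d ∈ T, (∀ i, Fund (d i) ∧ |d i| ≤ X) ∧ R d) → (T.card : ℝ) ≤ B) :
    ({d : Fin k → ℤ | (∀ i, Fund (d i) ∧ |d i| ≤ X) ∧ R d}.ncard : ℝ) ≤ B := by
  classical
  have hfin : {d : Fin k → ℤ | (∀ i, Fund (d i) ∧ |d i| ≤ X) ∧ R d}.Finite := by
    refine (Finset.finite_toSet (Fintype.piFinset (fun _ : Fin k => Icc (-(X : ℤ)) X))).subset ?_
    rintro d ⟨hd, -⟩
    rw [mem_coe, Fintype.mem_piFinset]
    intro i
    have := (hd i).2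
    rw [abs_le] at this
    rw [mem_Icc]
    exact this
  rw [Set.ncard_eq_toFinset_card _ hfin]
  refine h _ fun d hd => ?_
  rw [Set.Finite.mem_toFinset] at hd
  exact hd

lemma ncard_le_one (X : ℕ) (R : ℤ → Prop) (B : ℝ)
    (h : ∀ T : Finset ℤ, (∀ d ∈ T, (Fund d ∧ |d| ≤ X) ∧ R d) → (T.card : ℝ) ≤ B) :
    ({d : ℤ | (Fund d ∧ |d| ≤ X) ∧ R d}.ncard : ℝ) ≤ B := by
  classical
  have hfin : {d : ℤ | (Fund d ∧ |d| ≤ X) ∧ R d}.Finite := by
    refine (Finset.finite_toSet (Icc (-(X : ℤ)) X)).subset ?_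
    rintro d ⟨hd, -⟩
    have := hd.2
    rw [abs_le] at this
    rw [mem_coe, mem_Icc]
    exact this
  rw [Set.ncard_eq_toFinset_card _ hfin]
  refine h _ fun d hd => ?_
  rw [Set.Finite.mem_toFinset] at hd
  exact hd

/-- the library's count for single discriminants -/
theorem cnt2 : S_CNT2 := by
  refine CNT2.main ?_ SPL.main
  intro A ρ κ η ε h1 h2 h3 h4 h5 h6 h7 h8
  obtain ⟨c, K, hc, hK, h⟩ := bad3 A ρ κ η ε h1 h2 h3 h4 h5 h6 h7 h8
  refine ⟨c, K, hc, hK, fun Q X y g1 g2 g3 g4 => ?_⟩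
  have := h (-1) Q X y g1 g2 g3 g4
  simpa [sd, ss] using this

theorem many (k : ℕ) (hk : 1 ≤ k) (ε : ℝ) (hε : 0 < ε) :
    ∃ K : ℝ, 0 < K ∧ ∀ X : ℕ, 1 ≤ X → ∀ T : Finset (Fin k → ℤ),
      (∀ d ∈ T, (∀ i, Fund (d i) ∧ |d i| ≤ X) ∧
        (NP Set.univ d (fun _ => true) : ℝ) < Real.log X ^ 2) →
      (T.card : ℝ) ≤ K * (X : ℝ) ^ (k - 1 / 2 + ε) := by
  classical
  obtain ⟨c, K, hc, hK, hJ⟩ := joint k hk 2 1 (1 / 2) ε Set.univ one_pos le_rfl (by norm_num)
    (by norm_num) hε Fin2.thick_univ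
  have h2k : (1 : ℝ) ≤ 2 ^ k := one_le_pow₀ (by norm_num)
  obtain ⟨X₀, hX₀⟩ := range_ex k hk c hc (64 * 2 ^ k) (by linarith)
  obtain ⟨κ, hκ⟩ : ∃ κ : ℝ, κ = 1 / 4 := ⟨_, rfl⟩
  refine ⟨K + k * 3 ^ k + (2 * X₀ + 1) ^ k, by positivity, fun X hX T hT => ?_⟩
  have hX1 : (1 : ℝ) ≤ X := by exact_mod_cast hX
  have hXp : (0 : ℝ) < X := by linarith
  have hk1 : (1 : ℝ) ≤ k := by exact_mod_cast hk
  obtain ⟨E, hE⟩ : ∃ E : ℝ, E = (X : ℝ) ^ (k - 1 / 2 + ε) := ⟨_, rfl⟩
  have hbig : (1 : ℝ) ≤ E := by rw [hE]; exact Real.one_le_rpow hX1 (by linarith)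
  rw [← hE]
  rcases lt_or_ge X X₀ with hlt | hge
  · have hTpi : T ⊆ Fintype.piFinset (fun _ : Fin k => Icc (-(X : ℤ)) X) := by
      intro d hd
      rw [Fintype.mem_piFinset]
      intro i
      have := ((hT d hd).1 i).2
      rw [abs_le] at this
      rw [mem_Icc]
      exact this
    have hIc : ((Icc (-(X : ℤ)) X).card : ℝ) = 2 * X + 1 := by
      rw [Int.card_Icc]
      have : ((X : ℤ) + 1 - -(X : ℤ)).toNat = 2 * X + 1 := by omega
      rw [this]
      push_cast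
      ring
    have h1 : (T.card : ℝ) ≤ (2 * X + 1) ^ k := by
      have h2 := card_le_card hTpi
      rw [Fintype.card_piFinset_const] at h2
      have h3 : (T.card : ℝ) ≤ ((Icc (-(X : ℤ)) X).card : ℝ) ^ k := by exact_mod_cast h2
      rwa [hIc] at h3
    have h2 : ((2 : ℝ) * X + 1) ^ k ≤ (2 * X₀ + 1) ^ k := by
      refine pow_le_pow_left₀ (by positivity) ?_ k
      have : (X : ℝ) ≤ X₀ := by exact_mod_cast hlt.le
      linarith
    have h3 : (0 : ℝ) ≤ (2 * X₀ + 1) ^ k := by positivity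
    have h4 : (0 : ℝ) ≤ k * 3 ^ k := by positivity
    nlinarith
  · have hs := small_tuples k hk X hX (T.filter (fun d => ∃ i, |(d i : ℝ)| < (X : ℝ) ^ (1 / 2 : ℝ)))
      (fun d hd => ⟨fun i => ((hT d (mem_filter.1 hd).1).1 i).2, (mem_filter.1 hd).2⟩)
    have hl := hJ X hX (T.filter (fun d => ¬ ∃ i, |(d i : ℝ)| < (X : ℝ) ^ (1 / 2 : ℝ))) (by
      intro d hd
      rw [mem_filter] at hd
      obtain ⟨hdT, hbig'⟩ := hd
      push Not at hbig'
      obtain ⟨h1, hs⟩ := hT d hdT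
      refine ⟨h1, ?_⟩
      obtain ⟨y, g1, g2, g3, g4, g5⟩ := hX₀ X hge d (fun i => ⟨hbig' i, by
        have := (h1 i).2
        rw [← Int.cast_abs]
        exact_mod_cast this⟩)
      refine ⟨y, fun _ => true, g1, g2, ?_⟩
      have s1 : patIn Set.univ d (fun _ => true) y =
          {p : ℕ | p.Prime ∧ p ∈ Set.univ ∧ (∀ i, (p : ℝ) < thr (d i)) ∧ Pt d (fun _ => true) p} := by
        ext p
        constructor
        · rintro ⟨a1, a2, a3, a4⟩
          exact ⟨a1, a3, (g3 p).mp a2, a4⟩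
        · rintro ⟨a1, a2, a3, a4⟩
          exact ⟨a1, (g3 p).mpr a3, a2, a4⟩
      have hN : ((patIn Set.univ d (fun _ => true) y).ncard : ℝ) < Real.log X ^ 2 := by
        rw [s1]; exact hs
      -- the number of all primes
      have hpr : κ * (y : ℝ) ≤ (primesIn Set.univ y).ncard * Real.log y := by
        have h := primes_lower y g4
        rw [hκ]
        exact h
      have hlogy : 0 < Real.log (y : ℝ) := Real.log_pos (by
        have : (16 : ℝ) ≤ y := by exact_mod_cast g4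
        linarith)
      have h3 : Real.log X ^ 2 * (64 * 2 ^ k) ≤ (primesIn Set.univ y).ncard := by
        have h4 : Real.log X ^ 2 * (64 * 2 ^ k) * Real.log y ≤
            (primesIn Set.univ y).ncard * Real.log y := by
          rw [hκ] at hpr
          nlinarith
        exact le_of_mul_le_mul_right h4 hlogy
      have h5 : 0 ≤ Real.log (X : ℝ) ^ 2 := sq_nonneg _
      have h6 : 2 ^ k * ((patIn Set.univ d (fun _ => true) y).ncard : ℝ) ≤ 2 ^ k * Real.log X ^ 2 :=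
        mul_le_mul_of_nonneg_left hN.le (by positivity)
      have h8 : 0 < Real.log (X : ℝ) ^ 2 := lt_of_le_of_lt (Nat.cast_nonneg _) hN
      have h7 : 1 / 2 * ((primesIn Set.univ y).ncard : ℝ) <
          (primesIn Set.univ y).ncard - 2 ^ k * ((patIn Set.univ d (fun _ => true) y).ncard : ℝ) := by
        nlinarith
      refine h7.trans_le ?_
      rw [abs_sub_comm]
      exact le_abs_self _)
    have h1 : (T.card : ℝ) = (T.filter (fun d => ∃ i, |(d i : ℝ)| < (X : ℝ) ^ (1 / 2 : ℝ))).card +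
        (T.filter (fun d => ¬ ∃ i, |(d i : ℝ)| < (X : ℝ) ^ (1 / 2 : ℝ))).card := by
      exact_mod_cast (card_filter_add_card_filter_not (s := T) _).symm
    have e1 : (k : ℝ) - 1 + 1 / 2 + ε = k - 1 / 2 + ε := by ring
    rw [e1, ← hE] at hl
    have h2 : (X : ℝ) ^ ((k : ℝ) - 1 / 2) ≤ E := by
      rw [hE]
      exact Real.rpow_le_rpow_of_exponent_le hX1 (by linarith)
    have h3 : (k : ℝ) * 3 ^ k * (X : ℝ) ^ ((k : ℝ) - 1 / 2) ≤ k * 3 ^ k * E :=
      mul_le_mul_of_nonneg_left h2 (by positivity)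
    have h4 : (0 : ℝ) ≤ (2 * X₀ + 1) ^ k := by positivity
    have h5 : (0 : ℝ) ≤ (2 * X₀ + 1) ^ k * E := by positivity
    rw [h1]
    nlinarith

end Pool.Agent.U61.JS
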